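import Pool.Agent.L0h18.CO.Nef

/-!
The nef cone conjecture for varieties whose automorphisms act cocompactly on a cone of divisor
classes.

`Place`, `IsPrimeDivisor`, `NormalModel` and `IsAut` are the places of the function field, the
prime divisors of `X`, normal projective models and automorphisms (`Pool.Agent.W602.GT`,
`Pool.Agent.Y172`, `Pool.Agent.R887`); `PicardBasis`, `effCone`, `nefCone`, `movCone`, `IsPullBack`,
`Preserves` and `HasFundDomain` are defined in `Pool.Agent.N110.CC.Defs`; `Cocompact` and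
`IsOpenCone` in `Pool.Agent.L0h18.CO.Defs`.
-/

set_option autoImplicit false

open FF Pool.Agent.W602.GT Pool.Agent.Y172 Pool.Agent.R887 Pool.Agent.N110 Pool.Agent.N110.CC
open Pool.Agent.N110.PA Pool.Agent.N110.NV Pool.Agent.N492.PA
open Pool.Agent.L0h18.CO
open Pool.Agent.N165.KM (interior_add_mem interior_smul_mem)

namespace Pool.Agent.Results.MP_20d318_ag.CocompactNef

section

variable {K : Type} [Field K] [Algebra ℂ K] {N n ρ : ℕ} {y : Fin (N + 1) → K}
  {c : Place ℂ K → Fin ρ → ℤ}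

/-- The group `𝒮` consists of automorphisms of `X` which preserve the divisor `Δ`. -/
def IsAutGroup (y : Fin (N + 1) → K) (Δ : Place ℂ K → ℝ) (𝒮 : Subgroup (K ≃ₐ[ℂ] K)) : Prop :=
  ∀ ψ ∈ 𝒮, IsAut ψ y ∧ Preserves ψ y Δ

/-- The group `𝒮` of automorphisms preserves the open convex cone `Ω` in `N¹(X) ⊗ ℝ`, whose
closure contains no line, acts cocompactly on it up to positive scalars, and `Ω` contains a
pseudo-effective class. -/
structure CocompactAction (y : Fin (N + 1) → K) (c : Place ℂ K → Fin ρ → ℤ)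
    (𝒮 : Subgroup (K ≃ₐ[ℂ] K)) (Ω : Set (Fin ρ → ℝ)) : Prop where
  cone : IsOpenCone Ω
  inv : ∀ ψ ∈ 𝒮, ∀ T, IsPullBack y c ψ T → ∀ x ∈ Ω, T x ∈ Ω
  cocompact : Cocompact {T | ∃ ψ ∈ 𝒮, IsPullBack y c ψ T} Ω
  psef : (Ω ∩ closure (effCone y c)).Nonempty

/-- The nef cone conjecture holds for `(X, Δ)`, all effective classes are nef, and all nonzero
effective classes are ample, that is, in the interior of the nef cone. -/
structure ConeConjectureAmple (y : Fin (N + 1) → K) (n : ℕ) (c : Place ℂ K → Fin ρ → ℤ)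
    (Δ : Place ℂ K → ℝ) : Prop where
  nef : effCone y c ⊆ nefCone y n c
  ample : ∀ x ∈ effCone y c, x ≠ 0 → x ∈ interior (nefCone y n c)
  domain : HasFundDomain {T | ∃ ψ, IsAut ψ y ∧ Preserves ψ y Δ ∧ IsPullBack y c ψ T}
    (nefCone y n c ∩ effCone y c)

end

/-- Let `X` be a normal projective variety of dimension `n ≥ 1`, with generic point `y`. Let the
vectors `c P` be the classes of the prime divisors in `N¹(X) = ℤ ^ ρ` (if `X` is `ℚ`-factorial then
`ρ` is the Picard number of `X`), and let `Δ` be a divisor, for instance `Δ = 0`.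

1. If a group `𝒮` of automorphisms of `X` which preserve `Δ` acts cocompactly, up to positive
   scalars, on an open convex cone `Ω` in `N¹(X) ⊗ ℝ` whose closure contains no line, and if `Ω`
   contains a pseudo-effective class, then `Ω` is the ample cone, the interior of the nef cone, and
   also the big cone, the interior of the effective cone. Every nef class which is a nonzero integral
   vector is ample.
2. Such a group and such a cone exist if and only if the nef cone conjecture holds for `(X, Δ)`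
   (the action of the group of all automorphisms which preserve `Δ` on `Nef(X) ∩ Eff(X)` has a
   rational polyhedral fundamental domain), all effective classes are nef, and all effective
   classes except zero are ample. -/
theorem result {K : Type} [Field K] [Algebra ℂ K] {N n ρ : ℕ} {y : Fin (N + 1) → K}
    (hy : NormalModel y) (hn : Algebra.trdeg ℂ K = n) (hn0 : 0 < n)
    {c : Place ℂ K → Fin ρ → ℤ} (hc : PicardBasis y c) (Δ : Place ℂ K → ℝ) :
    (∀ (𝒮 : Subgroup (K ≃ₐ[ℂ] K)) (Ω : Set (Fin ρ → ℝ)), IsAutGroup y Δ 𝒮 →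
      CocompactAction y c 𝒮 Ω → Ω = interior (nefCone y n c) ∧ Ω = interior (effCone y c) ∧
        ∀ D : Fin ρ → ℤ, D ≠ 0 → (fun i => (D i : ℝ)) ∈ nefCone y n c →
          (fun i => (D i : ℝ)) ∈ interior (nefCone y n c)) ∧
    ((∃ (𝒮 : Subgroup (K ≃ₐ[ℂ] K)) (Ω : Set (Fin ρ → ℝ)), IsAutGroup y Δ 𝒮 ∧
      CocompactAction y c 𝒮 Ω) ↔ ConeConjectureAmple y n c Δ) := by
  have hpc := pc_eff hc.numClasses
  have hE := Pool.Agent.N40.CC.leafEFF K N ρ y hy c hc
  have hps : ∀ φ, IsAut φ y → PseudoAut φ y := fun φ hφ =>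
    (Pool.Agent.N265.CC.leafFREE K N n y hy φ hφ).1
  have part1 : ∀ (𝒮 : Subgroup (K ≃ₐ[ℂ] K)) (Ω : Set (Fin ρ → ℝ)), IsAutGroup y Δ 𝒮 →
      CocompactAction y c 𝒮 Ω → Ω = interior (effCone y c) ∧ effCone y c ⊆ nefCone y n c ∧
        Ω = interior (nefCone y n c) :=
    fun 𝒮 Ω h𝒮 h => cone_eq_nef hy hn hn0 hc (fun φ hφ => (h𝒮 φ hφ).1) h.cone
      (fun T ⟨ψ, hψ, hT⟩ x hx => h.inv ψ hψ T hT x hx) h.cocompact h.psef
  refine ⟨fun 𝒮 Ω h𝒮 h => ?_, ?_, fun h => ?_⟩
  · obtain ⟨h1, -, h2⟩ := part1 𝒮 Ω h𝒮 h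
    refine ⟨h2, h1, fun D hD0 hD => ?_⟩
    have h3 : Ω = interior (CE y c) := h1.trans (interior_eff hy hc)
    have hlat := lat hy hc (fun φ hφ => hps φ (h𝒮 φ hφ).1)
    rw [← h2, h3]
    refine int_of_integral hpc hlat ?_ ?_ ?_ (fun i => ⟨D i, rfl⟩) (nef_sub hy hn hn0 hc hD) ?_
    · rw [← h3]
      exact h.psef.mono Set.inter_subset_left
    · rw [← h3]
      exact fun T ⟨ψ, hψ, hT⟩ x hx => h.inv ψ hψ T hT x hx
    · rw [← h3]
      exact h.cocompact
    · intro h0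
      apply hD0
      funext i
      have := congrFun h0 i
      simpa using this
  · rintro ⟨𝒮, Ω, h𝒮, h⟩
    obtain ⟨h1, h2, h5⟩ := part1 𝒮 Ω h𝒮 h
    have h𝒮' : ∀ φ ∈ 𝒮, PseudoAut φ y := fun φ hφ => hps φ (h𝒮 φ hφ).1
    have hco := h.cocompact
    have hinv : ∀ T ∈ pulls y c 𝒮, ∀ x ∈ Ω, T x ∈ Ω :=
      fun T ⟨ψ, hψ, hT⟩ x hx => h.inv ψ hψ T hT x hx
    have hne : Ω.Nonempty := h.psef.mono Set.inter_subset_left
    rw [h1] at hco hinv hne h5
    refine ⟨h2, fun x hx hx0 => ?_, ?_⟩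
    · rw [← h5]
      exact eff_big hy hc h𝒮' hne hinv hco hx hx0
    rw [Set.inter_eq_right.2 h2]
    have h3 := fund (𝒮 := 𝒮) (𝒯 := presGroup y (autGroup y) (fun _ h => isAut_ps hy h) Δ) hy hc
      (fun ψ hψ => h𝒮 ψ hψ) (fun ψ hψ => hps ψ hψ.1) hne hco
    have h4 : pulls y c (presGroup y (autGroup y) (fun _ h => isAut_ps hy h) Δ) =
        {T | ∃ ψ, IsAut ψ y ∧ Preserves ψ y Δ ∧ IsPullBack y c ψ T} := by
      ext T
      exact ⟨fun ⟨ψ, h1, h2⟩ => ⟨ψ, h1.1, h1.2, h2⟩, fun ⟨ψ, h1, h2, h3⟩ => ⟨ψ, ⟨h1, h2⟩, h3⟩⟩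
    rwa [h4] at h3
  · obtain ⟨𝒯, h𝒯⟩ : ∃ 𝒯, 𝒯 = presGroup y (autGroup y) (fun _ h => isAut_ps hy h) Δ := ⟨_, rfl⟩
    have h𝒯' : ∀ φ ∈ 𝒯, PseudoAut φ y := by
      rw [h𝒯]
      exact fun φ hφ => hps φ hφ.1
    have hlat := lat hy hc h𝒯'
    have hset : pulls y c 𝒯 =
        {T | ∃ ψ, IsAut ψ y ∧ Preserves ψ y Δ ∧ IsPullBack y c ψ T} := by
      rw [h𝒯]
      ext T
      exact ⟨fun ⟨ψ, h1, h2⟩ => ⟨ψ, h1.1, h1.2, h2⟩, fun ⟨ψ, h1, h2, h3⟩ => ⟨ψ, ⟨h1, h2⟩, h3⟩⟩
    obtain ⟨i, hi⟩ := hy.ne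
    obtain ⟨Hy, hHe, hH⟩ := exists_hyp hy hi
    have hint := hyp_intN hy hc hi hHe hH
    rw [← interior_eff hy hc] at hint
    have hdom := h.domain
    rw [Set.inter_eq_right.2 h.nef, ← hset] at hdom
    have h1 : (1 : (Fin ρ → ℝ) ≃ₗ[ℝ] (Fin ρ → ℝ)) ∈ pulls y c 𝒯 := by
      refine ⟨1, 𝒯.one_mem, fun P Q hP hPQ => ?_⟩
      rw [image_iff, comap_one] at hPQ
      rw [hPQ]
      rfl
    have hbig : ∀ x ∈ effCone y c, x ≠ 0 → x ∈ interior (effCone y c) := by
      intro x hx hx0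
      rw [interior_eff hy hc]
      exact interior_mono (nef_sub hy hn hn0 hc) (h.ample x hx hx0)
    have hco : Cocompact (pulls y c 𝒯) (interior (effCone y c)) :=
      cocompact_of_fund hlat.symm hbig h1 (fun x hx z hz => coneOf_add hx hz)
        (fun t ht x hx => coneOf_smul hx ht) (fun x hx hx' => hpc.pointed x (hE.1 hx) (hE.1 hx'))
        hdom
    refine ⟨𝒯, interior (effCone y c), by rw [h𝒯]; exact fun ψ hψ => hψ, ⟨⟨isOpen_interior, ?_, ?_,
      ?_⟩, ?_, hco, ⟨_, hint, subset_closure (interior_subset hint)⟩⟩⟩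
    · exact fun x hx z hz => interior_add_mem (fun x hx z hz => coneOf_add hx hz) hx
        (interior_subset hz)
    · exact fun t ht x hx => interior_smul_mem (fun t ht x hx => coneOf_smul hx ht) ht hx
    · intro x hx hx'
      have h2 : closure (interior (effCone y c)) ⊆ CE y c :=
        (closure_mono interior_subset).trans (closure_eff hy hc)
      exact hpc.pointed x (h2 hx) (h2 hx')
    · intro ψ hψ T hT x hx
      rw [interior_eff hy hc] at hx ⊢
      have hT' : T ∈ pulls y c 𝒯 := ⟨ψ, hψ, hT⟩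
      have h2 : IsOpen (T '' interior (CE y c)) :=
        (T.toContinuousLinearEquiv.toHomeomorph.isOpenMap) _ isOpen_interior
      refine interior_maximal ?_ h2 ⟨x, hx, rfl⟩
      rintro _ ⟨z, hz, rfl⟩
      exact hlat.pres T hT' z (interior_subset hz)

end Pool.Agent.Results.MP_20d318_ag.CocompactNef
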