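import Pool.Agent.L0h16.PZ.Inst

/-!
The nef cone conjecture for varieties whose divisor classes are a direct sum of `m ≥ 1` Lorentz lattices and spaces
of hermitian elements of orders, with a group of automorphisms which acts arithmetically on each summand.

`Place`, `IsPrimeDivisor`, `NormalModel` and `IsAut` are the places of the function field, the
prime divisors of `X`, normal projective models and automorphisms (`Pool.Agent.W602.GT`,
`Pool.Agent.Y172`, `Pool.Agent.R887`); `PicardBasis`, `effCone`, `nefCone`, `coneOf`, `IsPullBack`, `Preserves`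
and `HasFundDomain` are defined in `Pool.Agent.N110.CC.Defs`. `Lorentz B h`, `pcone B h`, `ncone B h`, `Pts B h`
and `FinIdx B h 𝒢` (`Pool.Agent.L0h18.LZ.Defs`): the integral form `B` has signature `(1, d - 1)`, the open and the
closed positive cone, the integral points of the closed cone, `𝒢` is a subgroup of finite index of the group
`O⁺(B, ℤ)`. `Sys A r` (`Pool.Agent.Y167.Sys`) is a real algebra `A` of dimension `r` with a positive involution `st`
and an order `R`; `Herm S Φ`, `pd S Φ`, `psd S Φ` and `FinIdxU S Φ 𝒢` are in `Pool.Agent.L0h18.HZ.Defs`. `DirSum`,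
`part` and `prd` are in `Pool.Agent.L0h16.PZ.Stm` and `IsArith` is in `Pool.Agent.L0h16.PZ.Main`.

For `m = 1` examples are the varieties for which `N¹(X)` is the space of quadratic forms in at least two variables,
with `GL_n(ℤ)`, or of hermitian forms over an imaginary quadratic field, a totally real or CM field or a totally
definite quaternion algebra. Examples for all `m` are the quotients `(A × Y₁ × ... × Y_k) / G`, where `A` is an abelian variety, the `Y_i` are hyperkähler
manifolds, and `G` is a finite group, if the divisor classes which are invariant under `G` are the sum of the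
invariant classes of the factors, and the automorphisms of the factors which commute with `G` act arithmetically.

The rigidity and the reduction theory of the pieces are due to helper18 and others (projects LZ and HZ, see
`MP_20d318_ag.LatticeActionsNef`). New here: in each piece the limits of `t_k T_k x` with `t_k → 0` generate the
closed cone, for `x` in the open cone, and they determine the closed cone by duality; so the rigidity extends to
direct sums.
-/

set_option autoImplicit false

open FF Pool.Agent.W602.GT Pool.Agent.Y172 Pool.Agent.R887 Pool.Agent.N110 Pool.Agent.N110.CC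
open Pool.Agent.N110.PA Pool.Agent.N110.NV Pool.Agent.N492.PA
open Pool.Agent.L0h18.CO Pool.Agent.L0h18.HZ Pool.Agent.L0h16.PZ
open Pool.Agent.N165.KM (IntL)

namespace Pool.Agent.Results.MP_20d318_ag.DirectSumsOfLatticesNef

section

variable {K : Type} [Field K] [Algebra ℂ K] {N n ρ : ℕ} {y : Fin (N + 1) → K}
  {c : Place ℂ K → Fin ρ → ℤ}

/-- The group `𝒮` consists of automorphisms of `X` which preserve the divisor `Δ`. -/
def IsAutGroup (y : Fin (N + 1) → K) (Δ : Place ℂ K → ℝ) (𝒮 : Subgroup (K ≃ₐ[ℂ] K)) : Prop :=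
  ∀ ψ ∈ 𝒮, IsAut ψ y ∧ Preserves ψ y Δ

/-- `N¹(X) ⊗ ℚ` is the direct sum of `m` pieces (`J i` are the embeddings and `Q i` the projections, both map
integral vectors to vectors with bounded denominators). For each `i` the elements of `𝒮` which act as the identity on
the other pieces act on the piece `i` either as a subgroup of finite index of `O⁺(B, ℤ)`, where `B` is an integral
form of signature `(1, d - 1)`, `d ≥ 3`, with isotropic vectors, or as a subgroup of finite index of the group of
units of an order of a real algebra with positive involution acts on the self-adjoint elements; `P i` and `C i` are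
the open and the closed cone of positive vectors (positive elements). Some pseudo-effective class is in the
product of the open cones. -/
structure SumAction (y : Fin (N + 1) → K) (c : Place ℂ K → Fin ρ → ℤ) (𝒮 : Subgroup (K ≃ₐ[ℂ] K)) {m : ℕ}
    {d : Fin m → ℕ} (J : ∀ i, (Fin (d i) → ℝ) →ₗ[ℝ] (Fin ρ → ℝ)) (Q : ∀ i, (Fin ρ → ℝ) →ₗ[ℝ] (Fin (d i) → ℝ))
    (P C : ∀ i, Set (Fin (d i) → ℝ)) : Prop where
  sum : DirSum J Q
  rat : ∃ M : ℕ, 0 < M ∧ ∀ i, ∀ x ∈ IntL ρ, (M : ℝ) • Q i x ∈ IntL (d i)
  arith : ∀ i, IsArith (part J {T | ∃ ψ ∈ 𝒮, IsPullBack y c ψ T} i) (P i) (C i)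
  psef : (prd Q P ∩ closure (effCone y c)).Nonempty

theorem all_of_zero {d : ℕ} {P : Set (Fin d → ℝ)} (hP : IsOpenCone P) (h0 : (0 : Fin d → ℝ) ∈ P)
    (x : Fin d → ℝ) : x ∈ P := by
  obtain ⟨ε, hε, hball⟩ := Metric.isOpen_iff.1 hP.isOpen 0 h0
  have h1 : (0 : ℝ) < ε / (2 * (‖x‖ + 1)) := by positivity
  have h2 : (ε / (2 * (‖x‖ + 1))) • x ∈ P := by
    apply hball
    rw [mem_ball_zero_iff, norm_smul, Real.norm_of_nonneg h1.le]
    have h3 : 0 ≤ ‖x‖ := norm_nonneg x
    rw [div_mul_eq_mul_div, div_lt_iff₀ (by positivity)]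
    nlinarith
  have h3 := hP.smul _ (inv_pos.2 h1) _ h2
  rwa [smul_smul, inv_mul_cancel₀ h1.ne', one_smul] at h3

/-- The group of automorphisms of `N¹(X)` induced by the automorphisms of `X` which preserve `Δ`. -/
def autAction (y : Fin (N + 1) → K) (c : Place ℂ K → Fin ρ → ℤ) (Δ : Place ℂ K → ℝ) :
    Set ((Fin ρ → ℝ) ≃ₗ[ℝ] (Fin ρ → ℝ)) :=
  {T | ∃ ψ, IsAut ψ y ∧ Preserves ψ y Δ ∧ IsPullBack y c ψ T}

end

/-- Let `X` be a normal projective variety of dimension `n ≥ 1`, with generic point `y`. Let the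
vectors `c P` be the classes of the prime divisors in `N¹(X) = ℤ ^ ρ` (if `X` is `ℚ`-factorial then
`ρ` is the Picard number of `X`), and let `Δ` be a divisor, for instance `Δ = 0`. Suppose that `N¹(X) ⊗ ℚ` is the
direct sum of `m` pieces (`m = 1` is allowed), and that a group `𝒮` of automorphisms of `X` which preserve `Δ` contains for each
piece `i` automorphisms which act as the identity on the other pieces and as a subgroup of finite index of
`O⁺(B, ℤ)`, or of the group of units of an order with positive involution, on this piece (`SumAction`). Then: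

1. the nef cone and the closure of the effective cone are the product of the closed cones `C i`, and the interior
   of the effective cone is the product of the open cones `P i`;
2. the group of all automorphisms which preserve `Δ` has a rational polyhedral fundamental domain
   on the rational hull of the nef cone (the convex cone generated by the integral nef classes);
3. it has one on `Nef(X) ∩ Eff(X)`, that is, the nef cone conjecture holds for `(X, Δ)`, if and only if
   for each piece the integral classes in the closed cone `C i` are effective;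
4. there is a finite set `F` of integral classes on the boundary of the nef cone, each in one of the pieces, such
   that the nef cone conjecture holds for `(X, Δ)` if and only if the classes in `F` are effective. -/
theorem result {K : Type} [Field K] [Algebra ℂ K] {N n ρ : ℕ} {y : Fin (N + 1) → K}
    (hy : NormalModel y) (hn : Algebra.trdeg ℂ K = n) (hn0 : 0 < n)
    {c : Place ℂ K → Fin ρ → ℤ} (hc : PicardBasis y c) (Δ : Place ℂ K → ℝ)
    (𝒮 : Subgroup (K ≃ₐ[ℂ] K)) (h𝒮 : IsAutGroup y Δ 𝒮) {m : ℕ} {d : Fin m → ℕ}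
    (J : ∀ i, (Fin (d i) → ℝ) →ₗ[ℝ] (Fin ρ → ℝ)) (Q : ∀ i, (Fin ρ → ℝ) →ₗ[ℝ] (Fin (d i) → ℝ))
    (P C : ∀ i, Set (Fin (d i) → ℝ)) (hL : SumAction y c 𝒮 J Q P C) :
    closure (effCone y c) = prd Q C ∧ interior (effCone y c) = prd Q P ∧ nefCone y n c = prd Q C ∧
    HasFundDomain (autAction y c Δ)
      (coneOf {x : Fin ρ → ℝ | (∀ i, ∃ m : ℤ, x i = (m : ℝ)) ∧ x ∈ nefCone y n c}) ∧
    (HasFundDomain (autAction y c Δ) (nefCone y n c ∩ effCone y c) ↔
      ∀ i, ∀ e ∈ C i, (∀ k, ∃ a : ℤ, e k = (a : ℝ)) → J i e ∈ effCone y c) ∧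
    ∃ F : Finset (Fin ρ → ℝ),
      (∀ e ∈ F, (∀ i, ∃ m : ℤ, e i = (m : ℝ)) ∧ e ∈ nefCone y n c ∧ e ∉ interior (nefCone y n c) ∧
        ∃ i, ∃ v ∈ C i, e = J i v) ∧
      (HasFundDomain (autAction y c Δ) (nefCone y n c ∩ effCone y c) ↔ ∀ e ∈ F, e ∈ effCone y c) := by
  classical
  have hps : ∀ φ, IsAut φ y → PseudoAut φ y := fun φ hφ =>
    (Pool.Agent.N265.CC.leafFREE K N n y hy φ hφ).1
  have h𝒮' : ∀ φ ∈ 𝒮, IsAut φ y := fun φ hφ => (h𝒮 φ hφ).1
  have h𝒮'' : ∀ φ ∈ 𝒮, PseudoAut φ y := fun φ hφ => hps φ (h𝒮' φ hφ)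
  obtain ⟨⟨hop, hcl, hint', hne, hCC⟩, hrig, F₀, hF₀, hcov⟩ :=
    sum_all mods hL.sum (𝒢 := pulls y c 𝒮) one_pulls (mul_pulls hy hc h𝒮'') hL.arith
  obtain ⟨hCE, hnef⟩ := nef_eqG hy hn hn0 hc h𝒮' hint' hrig hL.psef
  have hEi : interior (effCone y c) = prd Q P := by
    rw [interior_eff hy hc, hCE, hint']
  have hEc : closure (effCone y c) = prd Q C := by
    refine Set.Subset.antisymm ?_ ?_
    · rw [← hCE]
      exact closure_eff hy hc
    · rw [← hcl, ← hEi]
      exact closure_mono interior_subset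
  have h4 : pulls y c (presGroup y (autGroup y) (fun _ h => isAut_ps hy h) Δ) = autAction y c Δ := by
    ext T
    exact ⟨fun ⟨ψ, h1, h2⟩ => ⟨ψ, h1.1, h1.2, h2⟩, fun ⟨ψ, h1, h2, h3⟩ => ⟨ψ, ⟨h1, h2⟩, h3⟩⟩
  have key := mainG2 (𝒮 := 𝒮) (𝒯 := presGroup y (autGroup y) (fun _ h => isAut_ps hy h) Δ) hy hc
    (fun ψ hψ => h𝒮 ψ hψ) (fun ψ hψ => hps ψ hψ.1) hCC hop hcl hint' hne hcov hF₀ hCE hnef
  rw [h4] at key
  obtain ⟨key1, key2, F, hF, hFe⟩ := key
  -- the pieces
  obtain ⟨M, hM, hMJ⟩ := hL.sum.lat
  obtain ⟨M', hM', hMQ⟩ := hL.rat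
  have hMr : (0 : ℝ) < M := by exact_mod_cast hM
  have hM'r : (0 : ℝ) < M' := by exact_mod_cast hM'
  have hpc := fun i => piece_of mods (hL.arith i)
  have h0C : ∀ i, (0 : Fin (d i) → ℝ) ∈ C i := by
    intro i
    obtain ⟨p, hp⟩ := (hpc i).ne
    have h1 : p ∈ C i := by
      rw [← (hpc i).cl]
      exact subset_closure hp
    have := (hpc i).cc.smul 0 le_rfl p h1
    rwa [zero_smul] at this
  have hJC : ∀ i, ∀ v ∈ C i, J i v ∈ prd Q C := by
    intro i v hv j
    by_cases hji : j = i
    · subst hji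
      rw [hL.sum.same]
      exact hv
    · rw [hL.sum.other i j hji]
      exact h0C j
  have hunscale : ∀ (t : ℝ) (x : Fin ρ → ℝ), 0 < t → t • x ∈ effCone y c → x ∈ effCone y c := by
    intro t x ht hx
    have h1 : t⁻¹ • (t • x) ∈ effCone y c := coneOf_smul hx (inv_nonneg.2 ht.le)
    rwa [smul_smul, inv_mul_cancel₀ ht.ne', one_smul] at h1
  have hfwd : HasFundDomain (autAction y c Δ) (nefCone y n c ∩ effCone y c) →
      ∀ i, ∀ e ∈ C i, (∀ k, ∃ a : ℤ, e k = (a : ℝ)) → J i e ∈ effCone y c := by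
    intro h i e he hei
    refine hunscale M _ hMr (key2.1 h _ ?_ ?_)
    · rw [hnef]
      exact hCC.smul _ hMr.le _ (hJC i e he)
    · exact hMJ i e hei
  have hbwd : ∀ x ∈ nefCone y n c, (∀ i, J i (Q i x) ∈ effCone y c) → x ∈ effCone y c := by
    intro x _ h
    have h1 : ∑ i, J i (Q i x) ∈ effCone y c :=
      Finset.sum_induction _ (· ∈ effCone y c) (fun a b ha hb => coneOf_add ha hb) (coneOf_zero _) fun i _ => h i
    rwa [hL.sum.sum] at h1
  refine ⟨hEc, hEi, hnef, key1, ⟨hfwd, fun h => key2.2 fun e he hei => hbwd e he fun i => ?_⟩,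
    F.biUnion (fun e => Finset.univ.image fun i => ((M * M' : ℕ) : ℝ) • J i (Q i e)), fun e he => ?_, ⟨fun h e he => ?_,
      fun h => hFe.2 fun e he => hbwd e (hF e he).2.1 fun i => ?_⟩⟩
  · rw [hnef] at he
    refine hunscale M' _ hM'r ?_
    have h1 := h i ((M' : ℝ) • Q i e) ((hpc i).cc.smul _ hM'r.le _ (he i)) (hMQ i e hei)
    rwa [map_smul] at h1
  · obtain ⟨e', he', he⟩ := Finset.mem_biUnion.1 he
    obtain ⟨i, -, rfl⟩ := Finset.mem_image.1 he
    have h1 := (hF e' he').2.1
    rw [hnef] at h1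
    have h2 : ((M * M' : ℕ) : ℝ) • J i (Q i e') = (M : ℝ) • J i ((M' : ℝ) • Q i e') := by
      rw [map_smul, smul_smul]
      push_cast
      rfl
    refine ⟨?_, ?_, fun h3 => ?_, i, ((M * M' : ℕ) : ℝ) • Q i e', (hpc i).cc.smul _ (Nat.cast_nonneg _) _ (h1 i), ?_⟩
    · rw [h2]
      exact hMJ i _ (hMQ i e' (hF e' he').1)
    · rw [hnef]
      exact hCC.smul _ (Nat.cast_nonneg _) _ (hJC i _ (h1 i))
    · have h4 := (hF e' he').2.2
      rw [hnef, hint'] at h3 h4
      have h5 : (0 : ℝ) < ((M * M' : ℕ) : ℝ) := by push_cast; positivity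
      have h6 := hop.smul _ (inv_pos.2 h5) _ h3
      rw [smul_smul, inv_mul_cancel₀ h5.ne', one_smul] at h6
      apply h4
      intro j
      have h7 := h6 j
      by_cases hji : j = i
      · subst hji
        rwa [hL.sum.same] at h7
      · rw [hL.sum.other i j hji] at h7
        exact all_of_zero (hpc j).opn h7 _
    · rw [map_smul]
  · obtain ⟨e', he', he⟩ := Finset.mem_biUnion.1 he
    obtain ⟨i, -, rfl⟩ := Finset.mem_image.1 he
    have h1 := (hF e' he').2.1
    rw [hnef] at h1
    have h2 : ((M * M' : ℕ) : ℝ) • J i (Q i e') = (M : ℝ) • J i ((M' : ℝ) • Q i e') := by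
      rw [map_smul, smul_smul]
      push_cast
      rfl
    rw [h2]
    exact coneOf_smul (hfwd h i _ ((hpc i).cc.smul _ hM'r.le _ (h1 i)) (hMQ i e' (hF e' he').1)) hMr.le
  · refine hunscale ((M * M' : ℕ) : ℝ) _ (by push_cast; positivity) (h _ ?_)
    exact Finset.mem_biUnion.2 ⟨e, he, Finset.mem_image.2 ⟨i, Finset.mem_univ i, rfl⟩⟩

end Pool.Agent.Results.MP_20d318_ag.DirectSumsOfLatticesNef
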