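import Pool.Agent.L0h18.LZ.Inst

/-!
The nef cone conjecture for varieties whose automorphisms act on the divisor classes through a
subgroup of finite index of the orthogonal group of an integral quadratic form of signature `(1, ρ - 1)`.

`Place`, `IsPrimeDivisor`, `NormalModel` and `IsAut` are the places of the function field, the
prime divisors of `X`, normal projective models and automorphisms (`Pool.Agent.W602.GT`,
`Pool.Agent.Y172`, `Pool.Agent.R887`); `PicardBasis`, `effCone`, `nefCone`, `coneOf`, `IsPullBack`, `Preserves`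
and `HasFundDomain` are defined in `Pool.Agent.N110.CC.Defs`; `bil`, `Lorentz`, `pcone`, `ncone`, `Pts`,
`IsoZ` and `FinIdx` in `Pool.Agent.L0h18.LZ.Defs`.
-/

set_option autoImplicit false

open FF Pool.Agent.W602.GT Pool.Agent.Y172 Pool.Agent.R887 Pool.Agent.N110 Pool.Agent.N110.CC
open Pool.Agent.N110.PA Pool.Agent.N110.NV Pool.Agent.N492.PA
open Pool.Agent.L0h18.CO Pool.Agent.L0h18.LZ

namespace Pool.Agent.Results.MP_20d318_ag.LatticeActionsNef

section

variable {K : Type} [Field K] [Algebra ℂ K] {N n ρ : ℕ} {y : Fin (N + 1) → K}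
  {c : Place ℂ K → Fin ρ → ℤ}

/-- The group `𝒮` consists of automorphisms of `X` which preserve the divisor `Δ`. -/
def IsAutGroup (y : Fin (N + 1) → K) (Δ : Place ℂ K → ℝ) (𝒮 : Subgroup (K ≃ₐ[ℂ] K)) : Prop :=
  ∀ ψ ∈ 𝒮, IsAut ψ y ∧ Preserves ψ y Δ

/-- `B` is an integral quadratic form of signature `(1, ρ - 1)` on `N¹(X) = ℤ ^ ρ`, the group `𝒮` acts on
`N¹(X)` through a subgroup of finite index of the group of isometries of `B` which preserve the component
`pcone B h` of the cone of positive vectors, there is a pseudo-effective class in this component, and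
`ρ ≥ 3` or `B` has no isotropic vectors. -/
structure LatticeAction (y : Fin (N + 1) → K) (c : Place ℂ K → Fin ρ → ℤ)
    (𝒮 : Subgroup (K ≃ₐ[ℂ] K)) (B : Matrix (Fin ρ) (Fin ρ) ℤ) (h : Fin ρ → ℝ) : Prop where
  form : Lorentz B h
  index : FinIdx B h {T | ∃ ψ ∈ 𝒮, IsPullBack y c ψ T}
  rank : 3 ≤ ρ ∨ ∀ e ∈ Pts B h, bil B e e ≠ 0
  psef : (pcone B h ∩ closure (effCone y c)).Nonempty

/-- The group of automorphisms of `N¹(X)` induced by the automorphisms of `X` which preserve `Δ`. -/
def autAction (y : Fin (N + 1) → K) (c : Place ℂ K → Fin ρ → ℤ) (Δ : Place ℂ K → ℝ) :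
    Set ((Fin ρ → ℝ) ≃ₗ[ℝ] (Fin ρ → ℝ)) :=
  {T | ∃ ψ, IsAut ψ y ∧ Preserves ψ y Δ ∧ IsPullBack y c ψ T}

end

/-- Let `X` be a normal projective variety of dimension `n ≥ 1`, with generic point `y`. Let the
vectors `c P` be the classes of the prime divisors in `N¹(X) = ℤ ^ ρ` (if `X` is `ℚ`-factorial then
`ρ` is the Picard number of `X`), and let `Δ` be a divisor, for instance `Δ = 0`. Let `B` be an integral
quadratic form on `N¹(X)` of signature `(1, ρ - 1)`, and let `𝒮` be a group of automorphisms of `X`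
which preserve `Δ` and which act on `N¹(X)` through a subgroup of finite index of `O(B, ℤ)`; here `ρ ≥ 3` or
`B` is anisotropic. Then:

1. the nef cone and the closure of the effective cone are the closed positive cone of `B`, and
   the interior of the effective cone is the open positive cone;
2. the group of all automorphisms which preserve `Δ` has a rational polyhedral fundamental domain
   on the rational hull of the nef cone (the convex cone generated by the integral nef classes);
3. it has one on `Nef(X) ∩ Eff(X)`, that is, the nef cone conjecture holds for `(X, Δ)`, if and only if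
   all integral nef classes are effective;
4. for this it is enough to check finitely many integral classes, whose square is zero. -/
theorem result {K : Type} [Field K] [Algebra ℂ K] {N n ρ : ℕ} {y : Fin (N + 1) → K}
    (hy : NormalModel y) (hn : Algebra.trdeg ℂ K = n) (hn0 : 0 < n)
    {c : Place ℂ K → Fin ρ → ℤ} (hc : PicardBasis y c) (Δ : Place ℂ K → ℝ)
    (𝒮 : Subgroup (K ≃ₐ[ℂ] K)) (h𝒮 : IsAutGroup y Δ 𝒮) (B : Matrix (Fin ρ) (Fin ρ) ℤ) (h : Fin ρ → ℝ)
    (hL : LatticeAction y c 𝒮 B h) :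
    closure (effCone y c) = ncone B h ∧ interior (effCone y c) = pcone B h ∧ nefCone y n c = ncone B h ∧
    HasFundDomain (autAction y c Δ)
      (coneOf {x : Fin ρ → ℝ | (∀ i, ∃ m : ℤ, x i = (m : ℝ)) ∧ x ∈ nefCone y n c}) ∧
    (HasFundDomain (autAction y c Δ) (nefCone y n c ∩ effCone y c) ↔
      ∀ e : Fin ρ → ℝ, (∀ i, ∃ m : ℤ, e i = (m : ℝ)) → e ∈ nefCone y n c → e ∈ effCone y c) ∧
    ∃ F : Finset (Fin ρ → ℝ),
      (∀ e ∈ F, (∀ i, ∃ m : ℤ, e i = (m : ℝ)) ∧ e ∈ nefCone y n c ∧ bil B e e = 0) ∧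
      (HasFundDomain (autAction y c Δ) (nefCone y n c ∩ effCone y c) ↔ ∀ e ∈ F, e ∈ effCone y c) := by
  have hm := mods
  have hps : ∀ φ, IsAut φ y → PseudoAut φ y := fun φ hφ =>
    (Pool.Agent.N265.CC.leafFREE K N n y hy φ hφ).1
  have h𝒮' : ∀ φ ∈ 𝒮, IsAut φ y := fun φ hφ => (h𝒮 φ hφ).1
  obtain ⟨hCE, hnef⟩ := nef_eq hm hy hn hn0 hc h𝒮' hL.form hL.index hL.rank hL.psef
  obtain ⟨-, -, -, -, -, hcl, hint', -, -, -, -, -, -, -, -, -⟩ := hm.bas ρ B h hL.form
  have hpc := pc_eff hc.numClasses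
  have hEi : interior (effCone y c) = pcone B h := by
    rw [interior_eff hy hc, hCE, hint']
  have hEc : closure (effCone y c) = ncone B h := by
    refine Set.Subset.antisymm ?_ ?_
    · rw [← hCE]
      exact closure_eff hy hc
    · rw [← hcl, ← hEi]
      exact closure_mono interior_subset
  have h4 : pulls y c (presGroup y (autGroup y) (fun _ h => isAut_ps hy h) Δ) = autAction y c Δ := by
    ext T
    exact ⟨fun ⟨ψ, h1, h2⟩ => ⟨ψ, h1.1, h1.2, h2⟩, fun ⟨ψ, h1, h2, h3⟩ => ⟨ψ, ⟨h1, h2⟩, h3⟩⟩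
  have key := main (𝒮 := 𝒮) (𝒯 := presGroup y (autGroup y) (fun _ h => isAut_ps hy h) Δ) hm hy hc
    (fun ψ hψ => h𝒮 ψ hψ) (fun ψ hψ => hps ψ hψ.1) hL.form hL.index hCE hnef
  rw [h4] at key
  obtain ⟨k1, k2, F, k3, k4⟩ := key
  refine ⟨hEc, hEi, hnef, k2, ?_, F, fun e he => ?_, k4⟩
  · rw [k1, hnef]
  · rw [hnef]
    exact k3 e he

end Pool.Agent.Results.MP_20d318_ag.LatticeActionsNef
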