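import Pool.Agent.L0h18.PT.Geo2
import Pool.Agent.L0h18.PT.Fix

/-!
The nef cone conjecture for varieties with a group of automorphisms which acts on the divisor classes as a group
of translations of maximal rank (for instance the translations by the sections of an abelian fibration).

`Place`, `IsPrimeDivisor`, `NormalModel` and `IsAut` are the places of the function field, the
prime divisors of `X`, normal projective models and automorphisms (`Pool.Agent.W602.GT`,
`Pool.Agent.Y172`, `Pool.Agent.R887`); `PicardBasis`, `effCone`, `nefCone`, `IsPullBack`, `Preserves`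
and `HasFundDomain` are defined in `Pool.Agent.N110.CC.Defs`. `Tra` (translations) and `LocPoly` (a closed convex
cone is rational polyhedral near one of its points) are defined in `Pool.Agent.L0h18.PT.Cone`.
-/

set_option autoImplicit false

open FF Pool.Agent.W602.GT Pool.Agent.Y172 Pool.Agent.R887 Pool.Agent.N110 Pool.Agent.N110.CC
open Pool.Agent.N110.PA Pool.Agent.N110.NV Pool.Agent.N492.PA
open Pool.Agent.L0h18.CO Pool.Agent.L0h18.PT
open Pool.Agent.Y167 (cone)

namespace Pool.Agent.Results.MP_20d318_ag.TranslationGroupsNef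

section

variable {K : Type} [Field K] [Algebra ℂ K] {N n ρ : ℕ} {y : Fin (N + 1) → K}
  {c : Place ℂ K → Fin ρ → ℤ}

/-- The group `𝒮` consists of automorphisms of `X` which preserve the divisor `Δ`. -/
def IsAutGroup (y : Fin (N + 1) → K) (Δ : Place ℂ K → ℝ) (𝒮 : Subgroup (K ≃ₐ[ℂ] K)) : Prop :=
  ∀ ψ ∈ 𝒮, IsAut ψ y ∧ Preserves ψ y Δ

/-- The group `𝒮` acts on `N¹(X)` by translations of maximal rank along the nonzero integral nef class `e`: there is
a functional `l ≠ 0` which is nonnegative on the nef cone, with `l e = 0` (the degree on the fibres of a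
fibration, `e` being the pull back of a divisor from the base), the elements of `𝒮` act by translations
`T x = x + l x • v + φ x • e`, `l v = 0`, with `T e = e`, and the translation vectors `v`, together with `e`,
span the hyperplane `ker l`. -/
structure TranslationAction (y : Fin (N + 1) → K) (n : ℕ) (c : Place ℂ K → Fin ρ → ℤ)
    (𝒮 : Subgroup (K ≃ₐ[ℂ] K)) (l : (Fin ρ → ℝ) →ₗ[ℝ] ℝ) (e : Fin ρ → ℝ) : Prop where
  integral : ∀ i, ∃ m : ℤ, e i = (m : ℝ)
  nef : e ∈ nefCone y n c
  ne_zero : e ≠ 0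
  l_e : l e = 0
  l_nonneg : ∀ x ∈ nefCone y n c, 0 ≤ l x
  l_ne_zero : l ≠ 0
  trans : ∀ ψ ∈ 𝒮, ∀ T, IsPullBack y c ψ T → T e = e ∧ ∃ v, Tra l e T v
  rank : ∀ u, l u = 0 → u ∈ Submodule.span ℝ ({e} ∪ {v | ∃ ψ ∈ 𝒮, ∃ T, IsPullBack y c ψ T ∧ Tra l e T v})

/-- The cone `C` is locally rational polyhedral outside of the line `ℝ e`. -/
def LocPolyOutside (C : Set (Fin ρ → ℝ)) (e : Fin ρ → ℝ) : Prop :=
  ∀ x ∈ C, (∀ t : ℝ, x ≠ t • e) → LocPoly C x

/-- The group of automorphisms of `N¹(X)` induced by the automorphisms of `X` which preserve `Δ`. -/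
def autAction (y : Fin (N + 1) → K) (c : Place ℂ K → Fin ρ → ℤ) (Δ : Place ℂ K → ℝ) :
    Set ((Fin ρ → ℝ) ≃ₗ[ℝ] (Fin ρ → ℝ)) :=
  {T | ∃ ψ, IsAut ψ y ∧ Preserves ψ y Δ ∧ IsPullBack y c ψ T}

end

/-- Let `X` be a normal projective variety of dimension `n ≥ 1`, with generic point `y`. Let the
vectors `c P` be the classes of the prime divisors in `N¹(X) = ℤ ^ ρ` (if `X` is `ℚ`-factorial then
`ρ` is the Picard number of `X`, and the nef cone has interior points), and let `Δ` be a divisor, for instance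
`Δ = 0`. Suppose that a group `𝒮` of automorphisms of `X` which preserve `Δ` acts on `N¹(X)` by translations of
maximal rank along the integral nef class `e`, for the functional `l`. Then:

1. the nef classes in the kernel of `l` are the nonnegative multiples of `e`;
2. if the nef cone is locally rational polyhedral outside of the ray of `e` then the group of all
   automorphisms which preserve `Δ` has a rational polyhedral fundamental domain on the nef cone; it has one on
   `Nef(X) ∩ Eff(X)`, that is, the nef cone conjecture holds for `(X, Δ)`, if and only if all integral nef classes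
   are effective, if and only if the classes in a certain finite set `F` of integral classes on the boundary of
   the nef cone are effective; and if all nef classes outside of the ray of `e` are big, if and only if `e` is
   effective;
3. conversely, if all automorphisms which preserve `Δ` fix `e` then they have a rational polyhedral
   fundamental domain on the nef cone if and only if the nef cone is locally rational polyhedral outside
   of the ray of `e`, and the nef cone conjecture holds for `(X, Δ)` if and only if, moreover, all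
   integral nef classes are effective;
4. if `ρ ≥ 3` and the nef cone is locally rational polyhedral outside of the ray of `e` then all
   automorphisms of `X` which preserve `Δ` fix `e`.

So for `ρ ≥ 3` the nef cone conjecture holds for `(X, Δ)` and all automorphisms which preserve `Δ` fix `e` if and
only if the nef cone is locally rational polyhedral outside of the ray of `e` and all integral nef classes are
effective. -/
theorem result {K : Type} [Field K] [Algebra ℂ K] {N n ρ : ℕ} {y : Fin (N + 1) → K}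
    (hy : NormalModel y) (hn : Algebra.trdeg ℂ K = n) (hn0 : 0 < n)
    {c : Place ℂ K → Fin ρ → ℤ} (hc : PicardBasis y c) (hint : (interior (nefCone y n c)).Nonempty)
    (Δ : Place ℂ K → ℝ) (𝒮 : Subgroup (K ≃ₐ[ℂ] K)) (h𝒮 : IsAutGroup y Δ 𝒮) (l : (Fin ρ → ℝ) →ₗ[ℝ] ℝ)
    (e : Fin ρ → ℝ) (he : TranslationAction y n c 𝒮 l e) :
    (∀ x ∈ nefCone y n c, l x = 0 → ∃ t : ℝ, 0 ≤ t ∧ x = t • e) ∧
    (LocPolyOutside (nefCone y n c) e →
      HasFundDomain (autAction y c Δ) (nefCone y n c) ∧
      (HasFundDomain (autAction y c Δ) (nefCone y n c ∩ effCone y c) ↔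
        ∀ a ∈ nefCone y n c, (∀ i, ∃ m : ℤ, a i = (m : ℝ)) → a ∈ effCone y c) ∧
      (∃ F : Finset (Fin ρ → ℝ),
        (∀ a ∈ F, (∀ i, ∃ m : ℤ, a i = (m : ℝ)) ∧ a ∈ nefCone y n c ∧ a ∉ interior (nefCone y n c)) ∧
        (HasFundDomain (autAction y c Δ) (nefCone y n c ∩ effCone y c) ↔ ∀ a ∈ F, a ∈ effCone y c)) ∧
      ((∀ x ∈ nefCone y n c, (∀ t : ℝ, x ≠ t • e) → x ∈ interior (effCone y c)) →
        (HasFundDomain (autAction y c Δ) (nefCone y n c ∩ effCone y c) ↔ e ∈ effCone y c))) ∧
    ((∀ T ∈ autAction y c Δ, T e = e) →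
      (HasFundDomain (autAction y c Δ) (nefCone y n c) ↔ LocPolyOutside (nefCone y n c) e) ∧
      (HasFundDomain (autAction y c Δ) (nefCone y n c ∩ effCone y c) ↔
        LocPolyOutside (nefCone y n c) e ∧
          ∀ a ∈ nefCone y n c, (∀ i, ∃ m : ℤ, a i = (m : ℝ)) → a ∈ effCone y c)) ∧
    (3 ≤ ρ → LocPolyOutside (nefCone y n c) e → ∀ T ∈ autAction y c Δ, T e = e) := by
  classical
  have hps : ∀ φ, IsAut φ y → PseudoAut φ y := fun φ hφ =>
    (Pool.Agent.N265.CC.leafFREE K N n y hy φ hφ).1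
  have hpc := pc_eff hc.numClasses
  have hsub := nef_sub hy hn hn0 hc
  have h4 : pulls y c (presGroup y (autGroup y) (fun _ h => isAut_ps hy h) Δ) = autAction y c Δ := by
    ext T
    exact ⟨fun ⟨ψ, h1, h2⟩ => ⟨ψ, h1.1, h1.2, h2⟩, fun ⟨ψ, h1, h2, h3⟩ => ⟨ψ, ⟨h1, h2⟩, h3⟩⟩
  have hlat := lat (𝒮 := 𝒮) hy hc (fun φ hφ => hps φ (h𝒮 φ hφ).1)
  have hPar : Par (pulls y c 𝒮) (nefCone y n c) l e :=
    { one := one_pulls 𝒮
      mul := fun T hT T' hT' => mul_pulls hy hc (fun φ hφ => hps φ (h𝒮 φ hφ).1) hT hT'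
      symm := hlat.symm
      int := hlat.int
      pres := fun T hT x hx => nef_pres hy (fun φ hφ => (h𝒮 φ hφ).1) hT hx
      cc := ⟨isClosed_closure, fun x hx z hz => closure_coneOf_add hx hz,
        fun t ht x hx => closure_coneOf_smul hx ht⟩
      pt := fun x hx hx' => hpc.pointed x (hsub hx) (hsub hx')
      ne_int := hint
      e_mem := he.nef
      e_int := he.integral
      e_ne := he.ne_zero
      l_e := he.l_e
      l_pos := he.l_nonneg
      l_ne := he.l_ne_zero
      fix := fun T ⟨ψ, hψ, hT⟩ => (he.trans ψ hψ T hT).1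
      tra := fun T ⟨ψ, hψ, hT⟩ => (he.trans ψ hψ T hT).2
      rank := fun u hu => by
        have h1 := he.rank u hu
        have h2 : {v | ∃ ψ ∈ 𝒮, ∃ T, IsPullBack y c ψ T ∧ Tra l e T v} = {v | ∃ T ∈ pulls y c 𝒮, Tra l e T v} := by
          ext v
          exact ⟨fun ⟨ψ, hψ, T, hT, hv⟩ => ⟨T, ⟨ψ, hψ, hT⟩, hv⟩, fun ⟨T, ⟨ψ, hψ, hT⟩, hv⟩ => ⟨ψ, hψ, T, hT, hv⟩⟩
        rwa [h2] at h1 }
  have key : LocPolyOutside (nefCone y n c) e →
      HasFundDomain (autAction y c Δ) (nefCone y n c) ∧
      (HasFundDomain (autAction y c Δ) (nefCone y n c ∩ effCone y c) ↔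
        ∀ a ∈ nefCone y n c, (∀ i, ∃ m : ℤ, a i = (m : ℝ)) → a ∈ effCone y c) ∧
      (∃ F : Finset (Fin ρ → ℝ),
        (∀ a ∈ F, (∀ i, ∃ m : ℤ, a i = (m : ℝ)) ∧ a ∈ nefCone y n c ∧ a ∉ interior (nefCone y n c)) ∧
        (HasFundDomain (autAction y c Δ) (nefCone y n c ∩ effCone y c) ↔ ∀ a ∈ F, a ∈ effCone y c)) ∧
      ((∀ x ∈ nefCone y n c, (∀ t : ℝ, x ≠ t • e) → x ∈ interior (effCone y c)) →
        (HasFundDomain (autAction y c Δ) (nefCone y n c ∩ effCone y c) ↔ e ∈ effCone y c)) := by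
    intro hloc
    obtain ⟨F, hF, hcov⟩ := hPar.cover hloc
    obtain ⟨k1, k2, k3⟩ := mainP (𝒯 := presGroup y (autGroup y) (fun _ h => isAut_ps hy h) Δ) hy hn hn0 hc
      (fun ψ hψ => h𝒮 ψ hψ) (fun ψ hψ => hψ.1) rfl hint hF hcov
    rw [h4] at k1 k2 k3
    refine ⟨k1, k2, ⟨F.filter (fun a => a ∉ interior (nefCone y n c)), fun a ha => ?_, ?_⟩, fun hbig => ?_⟩
    · obtain ⟨ha1, ha2⟩ := Finset.mem_filter.1 ha
      exact ⟨(hF a ha1).1, (hF a ha1).2, ha2⟩
    · rw [k3]
      exact ⟨fun h a ha => h a (Finset.mem_filter.1 ha).1 (Finset.mem_filter.1 ha).2,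
        fun h a ha1 ha2 => h a (Finset.mem_filter.2 ⟨ha1, ha2⟩)⟩
    · rw [k3]
      constructor
      · intro h
        exact k2.1 (k3.2 h) e he.nef he.integral
      · intro h a ha _
        by_cases h1 : ∃ t : ℝ, a = t • e
        · obtain ⟨t, rfl⟩ := h1
          exact coneOf_smul h (hPar.nonneg (hF _ ha).2)
        · push Not at h1
          exact interior_subset (hbig a (hF a ha).2 h1)
  refine ⟨fun x hx h0 => hPar.ker hx h0, key, fun hfix => ?_, fun hρ hloc T hT => ?_⟩
  swap
  · rw [← h4] at hT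
    have hlat' := lat (𝒮 := presGroup y (autGroup y) (fun _ h => isAut_ps hy h) Δ) hy hc
      (fun φ hφ => hps φ hφ.1)
    exact hPar.fix_of_loc hρ hloc (fun x hx => ⟨hlat'.int T hT x hx, hlat'.int _ (hlat'.symm T hT) x hx⟩)
      (fun x hx => ⟨nef_pres (𝒮 := presGroup y (autGroup y) (fun _ h => isAut_ps hy h) Δ) hy (fun φ hφ => hφ.1) hT hx,
        nef_pres (𝒮 := presGroup y (autGroup y) (fun _ h => isAut_ps hy h) Δ) hy (fun φ hφ => hφ.1)
          (hlat'.symm T hT) hx⟩)
  rw [← h4] at hfix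
  have hloc : ∀ E : Set (Fin ρ → ℝ), interior (nefCone y n c) ⊆ E → E ⊆ nefCone y n c →
      HasFundDomain (autAction y c Δ) E → LocPolyOutside (nefCone y n c) e := by
    intro E h1 h2 h3
    rw [← h4] at h3
    exact loc_of_fund (𝒯 := presGroup y (autGroup y) (fun _ h => isAut_ps hy h) Δ) hy hc (fun ψ hψ => h𝒮 ψ hψ)
      (fun ψ hψ => hψ.1) hPar hfix h1 h2 h3
  refine ⟨⟨fun h => hloc _ interior_subset subset_rfl h, fun h => (key h).1⟩,
    ⟨fun h => ⟨?_, ?_⟩, fun h => (key h.1).2.1.2 h.2⟩⟩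
  · exact hloc (nefCone y n c ∩ effCone y c) (fun x hx => ⟨interior_subset hx, int_eff hy hn hn0 hc hx⟩)
      Set.inter_subset_left h
  · rw [← h4] at h
    exact eff_of_fund (𝒯 := presGroup y (autGroup y) (fun _ h => isAut_ps hy h) Δ) hy hn hn0 hc
      (fun ψ hψ => hψ.1) hint h

end Pool.Agent.Results.MP_20d318_ag.TranslationGroupsNef
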